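import Mathlib
import Pool.Agent.Lib.MP_c85d9c_lc.Waiter
import Pool.Agent.Lib.MP_c85d9c_lc.Reduce3
import Pool.Agent.Lib.MP_c85d9c_lc.Sat
import Pool.Agent.Lib.MP_c85d9c_lc.Inj
import Pool.Agent.Lib.CookLevin.NP
import Pool.Agent.Lib.CookLevin.Main

/-!
# WAITER-CLIENT with explicitly listed edges is NP-hard

Every language in NP is reduced, by a function computable in polynomial time by a Turing machine,
to the problem whether Waiter wins the Waiter-Client game on a hypergraph that is given by the
list of its edges. The encoding of hypergraphs is injective.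
-/

namespace Pool.Agent.Results.MP_c85d9c_lc.NPHard

open Pool.Agent.Lib.MP_c85d9c_lc Pool.Agent.Lib.CookLevin Turing

/-- WAITER-CLIENT with explicitly listed edges is NP-hard under polynomial-time many-one
reductions. -/
theorem result :
    Function.Injective Hyp.encode ∧
    ∀ (Γ : Type) [Fintype Γ] (L : Set (List Γ)), InNP L →
      ∃ f : List Γ → Hyp,
        Nonempty (TM2ComputableInPolyTime (id : List Γ → List Γ) Hyp.encode f) ∧
        ∀ x, x ∈ L ↔ (f x).IsWaiterWin := by
  refine ⟨Hyp.encode_injective, fun Γ _ L hL => ?_⟩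
  obtain ⟨g, ⟨h1⟩, h2⟩ := cook_levin hL
  obtain ⟨h3⟩ := red_computable
  refine ⟨red ∘ g, polyTime_comp h1 h3, fun x => ?_⟩
  rw [(h2 x).2, ← isTrue_iff_satisfiable (h2 x).1]
  exact red_iff _

end Pool.Agent.Results.MP_c85d9c_lc.NPHard
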