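import Mathlib
import Pool.Agent.Lib.MP_c85d9c_lc.Defs
import Pool.Agent.Lib.MP_c85d9c_lc.Reduce3
import Pool.Agent.Lib.MP_c85d9c_lc.Sat
import Pool.Agent.Lib.MP_c85d9c_lc.Inj

/-!
# Quantified Boolean formulas reduce to WAITER-CLIENT with explicitly listed edges

One function `f`, computable in polynomial time by a Turing machine, maps each quantified Boolean
formula `∃ x_{n-1} ∀ y_{n-1} ⋯ ∃ x_0 ∀ y_0, φ` with `φ` in conjunctive normal form to a hypergraph
given by the list of its edges, in such a way that the formula is true if and only if Waiter wins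
the Waiter-Client game on the hypergraph. (The truth of such formulas is PSPACE-complete.)
-/

namespace Pool.Agent.Results.MP_c85d9c_lc.WaiterClientHard

open Pool.Agent.Lib.MP_c85d9c_lc

/-- The truth of quantified Boolean formulas is reducible in polynomial time to WAITER-CLIENT with
explicit edges. -/
theorem result :
    Function.Injective Hyp.encode ∧
    ∃ f : Formula → Hyp,
      Nonempty (Turing.TM2ComputableInPolyTime Formula.encode Hyp.encode f) ∧
      ∀ φ : Formula, φ.IsTrue ↔ (f φ).IsWaiterWin :=
  ⟨Hyp.encode_injective, red, red_computable, red_iff⟩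

end Pool.Agent.Results.MP_c85d9c_lc.WaiterClientHard
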